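import Pool.Agent.H21.Geo5

namespace Pool.Agent.Results.MP_e14cd3_lc.ERHard

open Pool.Agent.H11.PT Pool.Agent.H21.ER

theorem result : ∃ f : Qf → List ((ℕ × ℕ) × ℕ × ℕ) × List (((ℕ × ℕ) × ℕ × ℕ) × (ℕ × ℕ) × ℕ × ℕ),
    PolyTime bits bits f ∧ ∀ φ, IsGraph (f φ) ∧ (ETR φ ↔ Orth3 (f φ)) := ort_hard

end Pool.Agent.Results.MP_e14cd3_lc.ERHard
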